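import Pool.Agent.Helper1.RK.StF

/-! Project RK (owner helper1), module OMG: one-forms. -/

set_option autoImplicit false

namespace Pool.Agent.Helper66.RK

open Pool.Agent.Helper1.RK Polynomial

theorem omg_roots {L : Type} [Field L] [CharZero L] [IsAlgClosed L] (a b : L) :
    ∃ e0 e1 e2 : L, e0 + e1 + e2 = 0 ∧ a = e0 * e1 + e0 * e2 + e1 * e2 ∧
      b = -(e0 * e1 * e2) := by
  obtain ⟨e0, he0⟩ : ∃ e0 : L, e0 ^ 3 + a * e0 + b = 0 := by
    have hdeg : (X ^ 3 + C a * X + C b : L[X]).degree ≠ 0 := by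
      have h1 : (X ^ 3 + C a * X + C b : L[X]).degree = 3 := by compute_degree!
      rw [h1]
      decide
    obtain ⟨x, hx⟩ := IsAlgClosed.exists_root (X ^ 3 + C a * X + C b : L[X]) hdeg
    refine ⟨x, ?_⟩
    have h2 : (X ^ 3 + C a * X + C b : L[X]).eval x = 0 := hx
    simpa using h2
  obtain ⟨δ, hδ⟩ := IsAlgClosed.exists_eq_mul_self (-3 * e0 ^ 2 - 4 * a)
  have h2 : (2 : L) ≠ 0 := two_ne_zero
  refine ⟨e0, (-e0 + δ) / 2, (-e0 - δ) / 2, ?_, ?_, ?_⟩
  · field_simp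
    ring
  · field_simp
    linear_combination (-1 : L) * hδ
  · field_simp
    linear_combination (4 : L) * he0 + e0 * hδ

theorem omg_leg {L : Type} [Field L] [CharZero L] [IsAlgClosed L] (a b : L)
    (hdisc : 4 * a ^ 3 + 27 * b ^ 2 ≠ 0) : ∃ e0 e1 e2 : L, e0 ≠ e1 ∧ e0 ≠ e2 ∧ e1 ≠ e2 ∧
    (∀ u : RatFunc L, wei a b u = (u - RatFunc.C e0) * (u - RatFunc.C e1) * (u - RatFunc.C e2)) := by
  obtain ⟨e0, e1, e2, hs, ha, hbE⟩ := omg_roots a b
  have hd : 4 * a ^ 3 + 27 * b ^ 2 = -((e0 - e1) * (e0 - e2) * (e1 - e2)) ^ 2 := by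
    have h2 : e2 = -e0 - e1 := by linear_combination hs
    rw [ha, hbE, h2]
    ring
  have hne : (e0 - e1) * (e0 - e2) * (e1 - e2) ≠ 0 := by
    intro h
    apply hdisc
    rw [hd, h]
    ring
  have h01 : e0 ≠ e1 := fun h => hne (by rw [h]; ring)
  have h02 : e0 ≠ e2 := fun h => hne (by rw [h]; ring)
  have h12 : e1 ≠ e2 := fun h => hne (by rw [h]; ring)
  have HbE : (RatFunc.C b : RatFunc L) = -(RatFunc.C e0 * RatFunc.C e1 * RatFunc.C e2) := by
    rw [hbE]; simp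
  have Hsum : (RatFunc.C e0 + RatFunc.C e1 + RatFunc.C e2 : RatFunc L) = 0 := by
    rw [← map_add, ← map_add, hs, map_zero]
  have HaE : (RatFunc.C a : RatFunc L) = RatFunc.C e0 * RatFunc.C e1 +
      RatFunc.C e0 * RatFunc.C e2 + RatFunc.C e1 * RatFunc.C e2 := by
    rw [ha]; simp
  refine ⟨e0, e1, e2, h01, h02, h12, fun u => ?_⟩
  unfold wei
  rw [HaE, HbE]
  linear_combination (u ^ 2) * Hsum

theorem omg_key {L : Type} [Field L] [CharZero L] [IsAlgClosed L] (h1 : StORD) (h2 : StREG)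
    (h4 : StDER) (h5 : StLD) (a b : L) (hdisc : 4 * a ^ 3 + 27 * b ^ 2 ≠ 0)
    (Dt : Derivation ℤ (RatFunc L) (RatFunc L)) (hDt : Over 0 1 Dt) (w : RatFunc L) (hw : ¬ Cst w)
    (p : L) : wei a b w ≠ 0 ∧ Dt w ≠ 0 ∧ ord p (wei a b w) ≤ 2 * ord p (Dt w) + 1 := by
  obtain ⟨e0, e1, e2, h01, h02, h12, hfac⟩ := omg_leg a b hdisc
  have hne : ∀ e : L, w - RatFunc.C e ≠ 0 := by
    intro e h
    exact hw ⟨e, sub_eq_zero.mp h⟩
  have hW : wei a b w ≠ 0 := by
    rw [hfac]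
    exact mul_ne_zero (mul_ne_zero (hne e0) (hne e1)) (hne e2)
  have hD : Dt w ≠ 0 := fun h => hw (((h4 L).2.2.2 Dt hDt w).mp h)
  refine ⟨hW, hD, ?_⟩
  have ht : e1 - e0 ≠ 0 := sub_ne_zero.2 h01.symm
  have hCt : (RatFunc.C (e1 - e0) : RatFunc L) ≠ 0 := by
    rw [Ne, map_eq_zero]; exact ht
  have hleg : wei a b w = RatFunc.C ((e1 - e0) ^ 3) *
      leg ((e2 - e0) / (e1 - e0)) ((w - RatFunc.C e0) / RatFunc.C (e1 - e0)) := by
    rw [hfac]
    unfold leg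
    have e3 : (RatFunc.C ((e2 - e0) / (e1 - e0)) : RatFunc L) =
        RatFunc.C (e2 - e0) / RatFunc.C (e1 - e0) := by rw [map_div₀]
    rw [e3, map_pow]
    have e4 : (RatFunc.C e1 : RatFunc L) = RatFunc.C e0 + RatFunc.C (e1 - e0) := by
      rw [← map_add]; congr 1; ring
    have e5 : (RatFunc.C e2 : RatFunc L) = RatFunc.C e0 + RatFunc.C (e2 - e0) := by
      rw [← map_add]; congr 1; ring
    rw [e4, e5]
    field_simp
    ring
  have hL0 : leg ((e2 - e0) / (e1 - e0)) ((w - RatFunc.C e0) / RatFunc.C (e1 - e0)) ≠ 0 := by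
    intro h
    rw [hleg, h, mul_zero] at hW
    exact hW rfl
  have hC3 : (RatFunc.C ((e1 - e0) ^ 3) : RatFunc L) ≠ 0 := by
    rw [Ne, map_eq_zero]; exact pow_ne_zero 3 ht
  obtain ⟨-, hmul, -, -, -, -, -, hC, -, -⟩ := h1 L p
  have hordW : ord p (wei a b w) =
      ord p (leg ((e2 - e0) / (e1 - e0)) ((w - RatFunc.C e0) / RatFunc.C (e1 - e0))) := by
    rw [hleg, hmul _ _ hC3 hL0, hC, zero_add]
  have hDz : Dt ((w - RatFunc.C e0) / RatFunc.C (e1 - e0)) = RatFunc.C (e1 - e0)⁻¹ * Dt w := by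
    have e6 : (w - RatFunc.C e0) / RatFunc.C (e1 - e0) = RatFunc.C (e1 - e0)⁻¹ * (w - RatFunc.C e0) := by
      rw [map_inv₀, div_eq_inv_mul]
    rw [e6, Derivation.leibniz, map_sub, hDt.1, hDt.1]
    simp
  have hordD : ord p (Dt ((w - RatFunc.C e0) / RatFunc.C (e1 - e0))) = ord p (Dt w) := by
    rw [hDz, hmul _ _ _ hD, hC, zero_add]
    rw [Ne, map_eq_zero]
    exact inv_ne_zero ht
  have hDz0 : Dt ((w - RatFunc.C e0) / RatFunc.C (e1 - e0)) ≠ 0 := by
    rw [hDz]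
    refine mul_ne_zero ?_ hD
    rw [Ne, map_eq_zero]
    exact inv_ne_zero ht
  have hreg1 : Reg p (1 : RatFunc L) := by
    have := ((h2 L p).2.2.2.2.1 1).1
    rwa [map_one] at this
  have hl0 : (e2 - e0) / (e1 - e0) ≠ 0 := div_ne_zero (sub_ne_zero.2 h02.symm) ht
  have hl1 : (e2 - e0) / (e1 - e0) ≠ 1 := by
    intro h
    rw [div_eq_one_iff_eq ht] at h
    exact h12 (sub_left_injective h).symm
  have := (h5 L p ((e2 - e0) / (e1 - e0)) 0 1 Dt ((w - RatFunc.C e0) / RatFunc.C (e1 - e0)) hl0 hl1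
    (by simp) hDt hreg1 hL0).1
  rcases this with h | h
  · exact absurd h hDz0
  · rw [hordW, ← hordD]
    exact h

theorem pOMG (h1 : StORD) (h2 : StREG) (h3 : StFIN) (h4 : StDER) (h5 : StLD) (h6 : StIOT)
    (h7 : StTRN) : StOMG := by
  intro L _ _ _ Dt a b w g hDt hdisc hw hg hsq
  obtain ⟨e0, e1, e2, h01, h02, h12, hfac⟩ := omg_leg a b hdisc
  -- the cubic at `X`
  have hXc : ∀ e : L, (RatFunc.X : RatFunc L) - RatFunc.C e ≠ 0 := by
    intro e h
    have h8 := (h1 L e).2.2.2.2.2.2.2.2.1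
    rw [h] at h8
    unfold ord at h8
    simp at h8
    omega
  have hf : wei a b (RatFunc.X : RatFunc L) ≠ 0 := by
    rw [hfac]
    exact mul_ne_zero (mul_ne_zero (hXc e0) (hXc e1)) (hXc e2)
  have hX : (RatFunc.X : RatFunc L) ≠ 0 := RatFunc.X_ne_zero
  obtain ⟨hW, hD, -⟩ := omg_key h1 h2 h4 h5 a b hdisc Dt hDt w hw 0
  have hom : Dt w * wei a b RatFunc.X / g ≠ 0 := div_ne_zero (mul_ne_zero hD hf) hg
  -- orders at finite points
  have hreg : ∀ p : L, Reg p (Dt w * wei a b RatFunc.X / g) := by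
    intro p
    obtain ⟨-, hmul, hinv, -, hpow, -, -, hC, -, -⟩ := h1 L p
    obtain ⟨-, -, hkey⟩ := omg_key h1 h2 h4 h5 a b hdisc Dt hDt w hw p
    obtain ⟨-, hR, -, -, hRC, hRX, hRa, -, -⟩ := h2 L p
    have hfr : Reg p (wei a b (RatFunc.X : RatFunc L)) := by
      unfold wei
      have r1 : Reg p ((RatFunc.X : RatFunc L) ^ 3) := by
        rw [pow_succ, pow_two]
        exact (hRa _ _ (hRa _ _ hRX.1 hRX.1).2.2.1 hRX.1).2.2.1
      have r2 : Reg p (RatFunc.C a * (RatFunc.X : RatFunc L)) := (hRa _ _ (hRC a).1 hRX.1).2.2.1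
      exact (hRa _ _ (hRa _ _ r1 r2).1 (hRC b).1).1
    have hf0 : 0 ≤ ord p (wei a b (RatFunc.X : RatFunc L)) := by
      rcases (hR _).mp hfr with h | h
      · exact absurd h hf
      · exact h
    have e1 : ord p (wei a b (RatFunc.X : RatFunc L)) + ord p (wei a b w) = 2 * ord p g := by
      rw [← hmul _ _ hf hW, hsq, hpow]
      norm_num
    have e2 : ord p (Dt w * wei a b RatFunc.X / g) =
        ord p (Dt w) + ord p (wei a b (RatFunc.X : RatFunc L)) - ord p g := by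
      rw [div_eq_mul_inv, hmul _ _ (mul_ne_zero hD hf) (inv_ne_zero hg), hmul _ _ hD hf, hinv]
      ring
    rw [hR]
    right
    omega
  obtain ⟨P, hP⟩ := (h3 L).1 _ hreg
  -- infinity
  obtain ⟨⟨ι, hι⟩, hι2, -, -, -, hι6⟩ := h6 L
  have hιC : ∀ c : L, ι (RatFunc.C c) = RatFunc.C c := (hι6 (ι : RatFunc L →ₐ[L] RatFunc L)).1
  have hιw : ¬ Cst (ι w) := fun h => hw (((hι6 (ι : RatFunc L →ₐ[L] RatFunc L)).2 w).mp h)
  have hιwei : ∀ u : RatFunc L, ι (wei a b u) = wei a b (ι u) := by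
    intro u
    unfold wei
    rw [map_add, map_add, map_mul, map_pow, hιC, hιC]
  obtain ⟨-, hT2, hT3⟩ := h7 L 0
  obtain ⟨D', hD'1, hD'2⟩ := hT2 ι 1 Dt hDt
  have hD'3 : Over 0 (- RatFunc.X ^ 2 * ι 1) D' := hT3 ι hι 1 Dt D' hDt hD'2
  have hZ : Over (L := L) 0 0 (0 : Derivation ℤ (RatFunc L) (RatFunc L)) := by
    refine ⟨fun c => ?_, ?_⟩
    · simp
    · simp
  have hD'4 : ∀ u, D' u = - RatFunc.X ^ 2 * Dt u := by
    intro u
    have := (h4 L).2.2.1 0 (- RatFunc.X ^ 2 * ι 1) D' 0 Dt hD'3 hZ hDt u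
    rw [this, map_one, mul_one]
    simp
  have hιD : ι (Dt w) = - RatFunc.X ^ 2 * Dt (ι w) := by rw [← hD'2, hD'4]
  obtain ⟨hWi, hDi, hkeyi⟩ := omg_key h1 h2 h4 h5 a b hdisc Dt hDt (ι w) hιw 0
  obtain ⟨-, hmul, hinv, hneg, hpow, -, -, hC, hXp, -⟩ := h1 L 0
  obtain ⟨-, hR, -, hR4, hRC, hRX, hRa, -, -⟩ := h2 L 0
  have hoX : ord 0 (RatFunc.X : RatFunc L) = 1 := by
    rw [map_zero, sub_zero] at hXp
    exact hXp
  have hιf0 : ι (wei a b (RatFunc.X : RatFunc L)) ≠ 0 := by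
    rw [Ne, map_eq_zero_iff ι ι.injective]
    exact hf
  have hιg0 : ι g ≠ 0 := by
    rw [Ne, map_eq_zero_iff ι ι.injective]
    exact hg
  -- the order of `ι f`
  have hof : ord 0 (ι (wei a b (RatFunc.X : RatFunc L))) = -3 := by
    have e1 : ι (wei a b (RatFunc.X : RatFunc L)) =
        (RatFunc.X⁻¹) ^ 3 * (RatFunc.C 1 + RatFunc.X * (RatFunc.X * (RatFunc.C a + RatFunc.C b * RatFunc.X))) := by
      rw [hιwei, hι]
      unfold wei
      rw [map_one]
      field_simp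
      ring
    have s1 := hRa _ _ (hRC b).1 hRX.1
    have s2 := hRa _ _ (hRC a).1 s1.2.2.1
    have s3 := hRa _ _ hRX.1 s2.1
    have s4 := hRa _ _ hRX.1 s3.2.2.1
    have s5 := hRa _ _ (hRC 1).1 s4.2.2.1
    have hev : ev 0 (RatFunc.C 1 + RatFunc.X * (RatFunc.X * (RatFunc.C a + RatFunc.C b * RatFunc.X)) :
        RatFunc L) = 1 := by
      rw [s5.2.1, s4.2.2.2.1, (hRC 1).2, hRX.2]
      ring
    have hu0 : (RatFunc.C 1 + RatFunc.X * (RatFunc.X * (RatFunc.C a + RatFunc.C b * RatFunc.X)) :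
        RatFunc L) ≠ 0 := by
      intro h
      have := (hR4 _ s5.1).mpr (Or.inl h)
      rw [hev] at this
      exact one_ne_zero this
    have ho : ord 0 (RatFunc.C 1 + RatFunc.X * (RatFunc.X * (RatFunc.C a + RatFunc.C b * RatFunc.X)) :
        RatFunc L) = 0 := by
      have g1 : 0 ≤ ord 0 (RatFunc.C 1 + RatFunc.X * (RatFunc.X * (RatFunc.C a + RatFunc.C b * RatFunc.X)) :
          RatFunc L) := by
        rcases (hR _).mp s5.1 with h | h
        · exact absurd h hu0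
        · exact h
      have g2 : ¬ 1 ≤ ord 0 (RatFunc.C 1 + RatFunc.X * (RatFunc.X * (RatFunc.C a + RatFunc.C b * RatFunc.X)) :
          RatFunc L) := by
        intro h
        have := (hR4 _ s5.1).mpr (Or.inr h)
        rw [hev] at this
        exact one_ne_zero this
      omega
    rw [e1, hmul _ _ (pow_ne_zero 3 (inv_ne_zero hX)) hu0, hpow, hinv, hoX, ho]
    norm_num
  have hregi : Reg 0 (ι (algebraMap L[X] (RatFunc L) P)) := by
    rw [← hP]
    have e1 : ι (wei a b (RatFunc.X : RatFunc L)) * wei a b (ι w) = ι g ^ 2 := by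
      rw [← hιwei, ← map_mul, hsq, map_pow]
    have e2 : ord 0 (ι (wei a b (RatFunc.X : RatFunc L))) + ord 0 (wei a b (ι w)) = 2 * ord 0 (ι g) := by
      rw [← hmul _ _ hιf0 hWi, e1, hpow]
      norm_num
    have e3 : ord 0 (ι (Dt w)) = 2 + ord 0 (Dt (ι w)) := by
      rw [hιD, neg_mul, hneg, hmul _ _ (pow_ne_zero 2 hX) hDi, hpow, hoX]
      norm_num
    have hιD0 : ι (Dt w) ≠ 0 := by
      rw [Ne, map_eq_zero_iff ι ι.injective]
      exact hD
    have e4 : ord 0 (ι (Dt w * wei a b RatFunc.X / g)) =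
        ord 0 (ι (Dt w)) + ord 0 (ι (wei a b (RatFunc.X : RatFunc L))) - ord 0 (ι g) := by
      rw [map_div₀, map_mul, div_eq_mul_inv, hmul _ _ (mul_ne_zero hιD0 hιf0) (inv_ne_zero hιg0),
        hmul _ _ hιD0 hιf0, hinv]
      ring
    rw [hR]
    right
    omega
  -- conclusion
  set c : L := ev 0 (ι (algebraMap L[X] (RatFunc L) P)) with hc
  have hd1 : Reg 0 (ι (algebraMap L[X] (RatFunc L) P) - RatFunc.C c) ∧
      ev 0 (ι (algebraMap L[X] (RatFunc L) P) - RatFunc.C c) = 0 := by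
    have := hRa _ _ hregi (hRC c).1
    refine ⟨this.2.2.2.2.1, ?_⟩
    rw [this.2.2.2.2.2, (hRC c).2, ← hc, sub_self]
  have hιPc : ι (algebraMap L[X] (RatFunc L) (P - Polynomial.C c)) =
      ι (algebraMap L[X] (RatFunc L) P) - RatFunc.C c := by
    rw [map_sub, map_sub, RatFunc.algebraMap_C, hιC]
  have hfin : (P - Polynomial.C c) ^ 2 = 0 := by
    apply (hι2 ι hι).2.1
    rw [map_pow, map_pow, hιPc]
    rcases (hR4 _ hd1.1).mp hd1.2 with h | h
    · rw [h]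
      simp only [ne_eq, OfNat.ofNat_ne_zero, not_false_eq_true, zero_pow, mul_zero]
      rw [hR]
      exact Or.inl rfl
    · have hne : ι (algebraMap L[X] (RatFunc L) P) - RatFunc.C c ≠ 0 := by
        intro h9
        rw [h9] at h
        unfold ord at h
        simp at h
        omega
      rw [hR, hmul _ _ (pow_ne_zero 2 (inv_ne_zero hX)) (pow_ne_zero 2 hne), hpow, hpow, hinv, hoX]
      right
      push_cast
      omega
  have hPc : P = Polynomial.C c := sub_eq_zero.mp (pow_eq_zero_iff (two_ne_zero)|>.mp hfin)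
  exact ⟨c, by rw [hP, hPc, RatFunc.algebraMap_C]⟩

end Pool.Agent.Helper66.RK
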